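import Mathlib
import Pool.Agent.H813R3.Voj.HypM
import Pool.Agent.H813R3.Voj.Pts

set_option autoImplicit false

namespace Pool.Agent.Results.MP_9b9442_nt.CyclicCovers

open IntermediateField

/-- The linear form vanishing at the point `P = (u : v)`, at the coprime numerator and denominator
of `x`. -/
def linear (P : ℤ × ℤ) (x : ℚ) : ℤ := P.2 * x.num - P.1 * x.den

/-- The binary form `a ∏ (v_j X - u_j Y) ^ (e_j)` at the numerator and the denominator of `x`. -/
def form {q : ℕ} (a : ℤ) (P : Fin q → ℤ × ℤ) (e : Fin q → ℕ) (x : ℚ) : ℤ :=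
  a * ∏ j, linear (P j) x ^ e j

/-- The logarithmic height of a rational number. -/
noncomputable def height (x : ℚ) : ℝ := Real.log ((max x.num.natAbs x.den : ℕ) : ℝ)

open Classical in
/-- The logarithmic discriminant of the field `ℚ(y)`. -/
noncomputable def logDisc (y : ℂ) : ℝ :=
  if _ : NumberField ℚ⟮y⟯ then
    Real.log |(NumberField.discr ℚ⟮y⟯ : ℝ)| / Module.finrank ℚ ℚ⟮y⟯ else 0

lemma log_le {y : ℂ} {n : ℤ} {m : ℕ} (hm : m.Prime) (hn : n ≠ 0) (hy : y ^ m = n)
    (S : Finset ℕ) :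
    ((m : ℝ) - 1) * Real.log (Pool.Agent.H813R3.Voj.rhoM m S n) ≤ m * logDisc y := by
  have h := Pool.Agent.H813R3.Voj.numberField_of_powM hm.pos hy
  unfold logDisc
  rw [dif_pos h]
  exact Pool.Agent.H813R3.Voj.log_rhoM_le hm hn hy S

/-- **Vojta's inequality for points of degree `m` on cyclic covers of prime degree `m`.** Let `m` be
a prime, `P_1, …, P_q` distinct rational points of the line (`q ≥ 3`), `a ≠ 0`, `e_j` exponents
prime to `m`, and let `X` be the curve `y ^ m = a ∏ (v_j X_1 - u_j X_0) ^ (e_j)` (for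
`m ∣ ∑ e_j`); it is totally ramified over the `P_j`, and its canonical divisor is numerically the
pull-back of `q (1 - 1 / m) - 2` points. For real `ε ≤ q (1 - 1 / m) - 2`, `c`, `δ > 0` and all
`B ≥ 1`, the points `(x, y)`, `y ≠ 0`, over rational numbers `x` of height at most `log B` satisfy
`h_K(x, y) ≤ d(x, y) + ε h_A(x, y) + c` (with `h_K = (q (1 - 1 / m) - 2) h(x)`, `h_A = h(x)`),
except for at most `C * B ^ (2 - 2 (2 + ε) / q + δ)` rational numbers `x`. -/
theorem result (m q : ℕ) (hm : m.Prime) (hq : 3 ≤ q) (P : Fin q → ℤ × ℤ)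
    (hP : ∀ j, IsCoprime (P j).1 (P j).2)
    (hPP : ∀ i j, i ≠ j → (P i).1 * (P j).2 ≠ (P j).1 * (P i).2)
    (a : ℤ) (ha : a ≠ 0) (e : Fin q → ℕ) (he : ∀ j, ¬ m ∣ e j)
    (ε c δ : ℝ) (hε : ε ≤ q * (1 - 1 / m) - 2) (hδ : 0 < δ) :
    ∃ C : ℝ, ∀ B : ℝ, 1 ≤ B → ∃ T : Finset ℚ,
      (T.card : ℝ) ≤ C * B ^ (2 - 2 * (2 + ε) / q + δ) ∧
      ∀ (x : ℚ) (y : ℂ), height x ≤ Real.log B → y ≠ 0 → y ^ m = (form a P e x : ℂ) → x ∉ T →
        (q * (1 - 1 / m) - 2) * height x ≤ logDisc y + ε * height x + c := by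
  classical
  have hP0 : ∀ j, P j ≠ 0 := by
    intro j h
    have h1 := hP j
    rw [h] at h1
    obtain ⟨a, b, hab⟩ := h1
    simp at hab
  have hdet : ∀ i j, i ≠ j → (P i).1 * (P j).2 - (P j).1 * (P i).2 ≠ 0 :=
    fun i j hij => sub_ne_zero.mpr (hPP i j hij)
  have hm0 : (0 : ℝ) < m := by exact_mod_cast hm.pos
  have hm2 : (2 : ℝ) ≤ m := by exact_mod_cast hm.two_le
  have hm1 : (0 : ℝ) < (m : ℝ) - 1 := by linarith
  have hq0 : (0 : ℝ) < q := by exact_mod_cast (show 0 < q by omega)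
  set S := Pool.Agent.H813R3.Voj.badPrimes P a with hS
  obtain ⟨C, hC, hCN⟩ := Pool.Agent.H813R3.Voj.count_forms'
    (Pool.Agent.H813R3.Voj.wt_rhoM m hm.one_lt.le S) 1 q (by omega) P hP0 hdet 2
    (by omega) (by omega) hδ
  set κ : ℝ := (1 - 1 / (m : ℝ)) * (((2 : ℕ) : ℝ) / q) with hκ
  refine ⟨C * (Real.exp (2 * |c|)) ^ κ, fun B hB => ?_⟩
  have hB0 : 0 < B := by linarith
  set θ : ℝ := (m : ℝ) / (m - 1) * (q * (1 - 1 / m) - 2 - ε) with hθ
  have hθ0 : 0 ≤ θ := mul_nonneg (by positivity) (by linarith)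
  -- the exceptional set
  set V : Set ℚ := {x | height x ≤ Real.log B ∧ (∀ j, linear (P j) x ≠ 0) ∧
    ∑ j, Real.log (Pool.Agent.H813R3.Voj.rhoM m S (linear (P j) x)) ≤
      θ * height x + 2 * |c|} with hV
  have hmain : V.Finite ∧ (V.ncard : ℝ) ≤
      C * (Real.exp (2 * |c|)) ^ κ * B ^ (2 - 2 * (2 + ε) / q + δ) := by
    refine Pool.Agent.H813R3.Voj.ncard_le_of_finset _ _ fun E hE => ?_
    set H : ℕ := ⌊B⌋₊ with hH
    have hH1 : 1 ≤ H := Nat.le_floor (by exact_mod_cast hB)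
    have hHle : (H : ℝ) ≤ B := Nat.floor_le hB0.le
    set Z : ℝ := Real.exp (2 * |c|) * B ^ θ with hZ
    have hZ1 : 1 ≤ Z := one_le_mul_of_one_le_of_one_le
      (Real.one_le_exp (by positivity)) (Real.one_le_rpow hB hθ0)
    have h1 := hCN H hH1 Z hZ1 (E.image Pool.Agent.H813R3.Voj.rvec) ?_
    · rw [Finset.card_image_of_injective _ Pool.Agent.H813R3.Voj.rvec_inj] at h1
      refine h1.trans ?_
      have h2 : Z ^ κ = (Real.exp (2 * |c|)) ^ κ * B ^ (θ * κ) := by
        rw [hZ, Real.mul_rpow (Real.exp_pos _).le (by positivity), ← Real.rpow_mul hB0.le]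
      have h3 : (H : ℝ) ^ (((1 + 1 - 2 : ℕ) : ℝ) + ((2 : ℕ) : ℝ) * (1 / m) + δ) ≤
          B ^ (2 / m + δ) := by
        have h4 : ((1 + 1 - 2 : ℕ) : ℝ) + ((2 : ℕ) : ℝ) * (1 / m) + δ = 2 / m + δ := by
          norm_num
          ring
        rw [h4]
        exact Real.rpow_le_rpow (by positivity) hHle (by positivity)
      have h5 : B ^ (2 - 2 * (2 + ε) / q + δ) = B ^ (θ * κ) * B ^ (2 / m + δ) := by
        rw [← Real.rpow_add hB0]
        congr 1
        rw [hκ, hθ]
        push_cast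
        field_simp
        ring
      rw [h5]
      calc C * Z ^ κ * (H : ℝ) ^ (((1 + 1 - 2 : ℕ) : ℝ) + ((2 : ℕ) : ℝ) * (1 / m) + δ)
          ≤ C * Z ^ κ * B ^ (2 / m + δ) := mul_le_mul_of_nonneg_left h3 (by positivity)
        _ = _ := by rw [h2]; ring
    · intro v hv
      obtain ⟨x, hx, rfl⟩ := Finset.mem_image.mp hv
      obtain ⟨hx1, hx2, hx3⟩ := hE hx
      have hmax : ((max x.num.natAbs x.den : ℕ) : ℝ) ≤ B := by
        unfold height at hx1
        refine (Real.log_le_log_iff ?_ hB0).mp hx1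
        exact_mod_cast (lt_max_of_lt_right x.pos : 0 < max x.num.natAbs x.den)
      have hmax' : max x.num.natAbs x.den ≤ H := Nat.le_floor hmax
      refine ⟨fun i => ?_, fun j => ?_, ?_⟩
      · fin_cases i
        · show |x.num| ≤ H
          rw [Int.abs_eq_natAbs]
          exact_mod_cast (le_max_left _ _).trans hmax'
        · show |-(x.den : ℤ)| ≤ H
          rw [abs_neg, Nat.abs_cast]
          exact_mod_cast (le_max_right _ _).trans hmax'
      · rw [Pool.Agent.H813R3.Voj.ev_rvec]; exact hx2 j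
      · simp only [Pool.Agent.H813R3.Voj.ev_rvec]
        have hpos : ∀ j, (0 : ℝ) <
            Pool.Agent.H813R3.Voj.rhoM m S (Pool.Agent.H813R3.Voj.lin (P j) x) :=
          fun j => by exact_mod_cast Pool.Agent.H813R3.Voj.rhoM_pos m S _
        rw [← Real.log_le_log_iff (Finset.prod_pos fun j _ => hpos j) (by positivity),
          Real.log_prod (fun j _ => (hpos j).ne')]
        refine le_trans hx3 ?_
        rw [hZ, Real.log_mul (Real.exp_pos _).ne' (by positivity), Real.log_exp,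
          Real.log_rpow hB0]
        have h4 : θ * height x ≤ θ * Real.log B := mul_le_mul_of_nonneg_left hx1 hθ0
        linarith
  refine ⟨hmain.1.toFinset, ?_, ?_⟩
  · rw [← Set.ncard_eq_toFinset_card _ hmain.1]
    exact hmain.2
  · intro x y hx hy0 hy hxT
    by_contra hcon
    rw [not_le] at hcon
    apply hxT
    rw [Set.Finite.mem_toFinset]
    have hn : form a P e x ≠ 0 := by
      intro h
      rw [h] at hy
      simp only [Int.cast_zero] at hy
      exact hy0 (pow_eq_zero_iff hm.pos.ne' |>.mp hy)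
    have hlin : ∀ j, linear (P j) x ≠ 0 := by
      intro j h
      have hej : e j ≠ 0 := fun h => he j (by rw [h]; exact dvd_zero _)
      exact hn (by
        unfold form
        rw [Finset.prod_eq_zero (Finset.mem_univ j) (by rw [h, zero_pow hej]), mul_zero])
    refine ⟨hx, hlin, ?_⟩
    have h1 := log_le hm hn hy S
    have h2 := Pool.Agent.H813R3.Voj.prod_rhoM_le hm P a ha hdet e he x hlin
    have h3 : Real.log (∏ j, (Pool.Agent.H813R3.Voj.rhoM m S
        (Pool.Agent.H813R3.Voj.lin (P j) x) : ℝ)) ≤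
        Real.log (Pool.Agent.H813R3.Voj.rhoM m S (form a P e x)) := by
      refine Real.log_le_log (Finset.prod_pos fun j _ => by
        exact_mod_cast Pool.Agent.H813R3.Voj.rhoM_pos m S _) ?_
      exact_mod_cast h2
    rw [Real.log_prod (fun j _ => by
      exact_mod_cast (Pool.Agent.H813R3.Voj.rhoM_pos m S _).ne')] at h3
    have h3' : ∑ j, Real.log (Pool.Agent.H813R3.Voj.rhoM m S (linear (P j) x)) ≤
        Real.log (Pool.Agent.H813R3.Voj.rhoM m S (form a P e x)) := h3
    have h4 := neg_le_abs c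
    have h5 : ((m : ℝ) - 1) * ∑ j, Real.log (Pool.Agent.H813R3.Voj.rhoM m S (linear (P j) x)) ≤
        m * ((q * (1 - 1 / m) - 2 - ε) * height x - c) := by
      refine (mul_le_mul_of_nonneg_left h3' hm1.le).trans (h1.trans ?_)
      refine mul_le_mul_of_nonneg_left ?_ hm0.le
      linarith
    have h6 : (m : ℝ) / (m - 1) ≤ 2 := by
      rw [div_le_iff₀ hm1]; linarith
    have h7 : ∑ j, Real.log (Pool.Agent.H813R3.Voj.rhoM m S (linear (P j) x)) ≤
        (m : ℝ) / (m - 1) * ((q * (1 - 1 / m) - 2 - ε) * height x - c) := by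
      rw [div_mul_eq_mul_div, le_div_iff₀ hm1, mul_comm]
      exact h5
    refine h7.trans ?_
    have h8 : (m : ℝ) / (m - 1) * (-c) ≤ 2 * |c| := by
      calc (m : ℝ) / (m - 1) * (-c) ≤ (m : ℝ) / (m - 1) * |c| :=
            mul_le_mul_of_nonneg_left h4 (by positivity)
        _ ≤ 2 * |c| := mul_le_mul_of_nonneg_right h6 (abs_nonneg c)
    calc (m : ℝ) / (m - 1) * ((q * (1 - 1 / m) - 2 - ε) * height x - c)
        = θ * height x + (m : ℝ) / (m - 1) * (-c) := by rw [hθ]; ring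
      _ ≤ _ := by linarith

end Pool.Agent.Results.MP_9b9442_nt.CyclicCovers
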