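import Pool.Agent.H845.Voj2.MainA
import Pool.Agent.H845.Voj2.Link

/-!
# Vojta's inequality for most quadratic points of hyperelliptic curves with rational Weierstrass points

Let `C` be the smooth projective curve `y² = f(x)` over `ℚ`, `f = c ∏_{i < m} (x - e_i) h(x)`, with
`c ≠ 0`, distinct rational `e_i`, and `h ∈ ℤ[x]` arbitrary with `h(e_i) ≠ 0` (`f` without repeated
roots, `deg f = 2g + 1` or `2g + 2`, `g` = genus).  Let `r` be the number of its rational Weierstrass
points that are seen: `r = m` if `deg f` is even, and `r = m + 1` (the point at infinity) if `deg f` is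
odd.  A closed point `P` of `C` above a rational number `x` with `f(x) ≠ 0` has residue field
`ℚ(P) = ℚ(√f(x))` of degree at most `2`; a canonical divisor is `(g - 1) x^*(∞)`, so that
`h_K(P) = (g - 1) log H(x) + O(1)`, where `H(a/b) = max(|a|, |b|)`.  Vojta's conjecture (`k = ℚ`,
`d = 2`) predicts `(g - 1) log H(x) ≤ d(P) + ε log H(x) + O(1)` with finitely many exceptions.
-/

set_option autoImplicit false

namespace Pool.Agent.Results.MP_9b9442_nt.RationalBranchPoints

open Polynomial

/-- The height `H(x) = max(|a|, b)` of the rational number `x = a / b` (in lowest terms, `b > 0`). -/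
def height (x : ℚ) : ℕ := max x.num.natAbs x.den

/-- The residue field of the closed points of `y² = f(x)` above a rational number `x` with
`f(x) = q`: the subfield of `ℂ` generated over `ℚ` by the square roots of `q`. -/
noncomputable abbrev residueField (q : ℚ) : IntermediateField ℚ ℂ :=
  IntermediateField.adjoin ℚ {y : ℂ | y ^ 2 = (q : ℂ)}

instance (q : ℚ) : NumberField (residueField q) := Pool.Agent.H845.Voj.instNF q

/-- The logarithmic discriminant `d(K) = (1 / [K : ℚ]) log |D_K|` of a number field `K`. -/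
noncomputable def logDisc (K : Type) [Field K] [NumberField K] : ℝ :=
  Real.log |((NumberField.discr K : ℤ) : ℝ)| / Module.finrank ℚ K

/-- The value `f(x) = c ∏ (x - e_i) h(x)`. -/
noncomputable def value {m : ℕ} (c : ℚ) (e : Fin m → ℚ) (h : ℤ[X]) (x : ℚ) : ℚ :=
  c * (∏ i, (x - e i)) * aeval x h

/-- **Vojta's inequality for most quadratic points.**  Let `f(x) = c ∏_{i < m} (x - e_i) h(x)` as
above, with `deg f = m + deg h`, and let `r ≥ 2` be the number of rational Weierstrass points that are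
seen.  Among the rational numbers `x` of height at most `B` with `f(x) ≠ 0`,

1. for every `κ ≥ 0`, all but `O(B^{1 + 2κ/r} (1 + log B))` satisfy `κ log H(x) < d(P)`;
2. for all real `κ` and all `0 ≤ α ≤ 3/4` with `α ≤ (r - 1)/2 - κ`, all but
`O(B^{2 - α} (1 + log B)^r)` satisfy `κ log H(x) < d(P)`.

(All sets in the statement are finite, since the height is bounded.) -/
theorem result {m : ℕ} (c : ℚ) (hc : c ≠ 0) (e : Fin m → ℚ) (he : Function.Injective e)
    (h : ℤ[X]) (hh : h ≠ 0) (hroot : ∀ i, aeval (e i) h ≠ 0) (r : ℕ)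
    (hr : (Even (m + h.natDegree) ∧ r = m) ∨ (Odd (m + h.natDegree) ∧ r = m + 1))
    (hr2 : 2 ≤ r) :
    (∀ κ : ℝ, 0 ≤ κ → ∃ C : ℝ, ∀ B : ℕ, 1 ≤ B →
      ({x : ℚ | height x ≤ B ∧ value c e h x ≠ 0 ∧
        ¬ (κ * Real.log (height x) < logDisc (residueField (value c e h x)))}.ncard : ℝ) ≤
      C * (B : ℝ) ^ (1 + 2 * κ / r) * (1 + Real.log B)) ∧
    (∀ κ α : ℝ, 0 ≤ α → α ≤ 3 / 4 → α ≤ ((r : ℝ) - 1) / 2 - κ → ∃ C : ℝ, ∀ B : ℕ, 1 ≤ B →
      ({x : ℚ | height x ≤ B ∧ value c e h x ≠ 0 ∧
        ¬ (κ * Real.log (height x) < logDisc (residueField (value c e h x)))}.ncard : ℝ) ≤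
      C * (B : ℝ) ^ (2 - α) * (1 + Real.log B) ^ r) := by
  have hR0 := Pool.Agent.H845.Voj2.RC_ne c e h hc hh hroot
  obtain ⟨N, rfl⟩ : ∃ N, r = N + 1 := ⟨r - 1, by omega⟩
  simp only [not_lt]
  rcases hr with ⟨hE, hrm⟩ | ⟨hO, hrm⟩
  · obtain ⟨l, hl⟩ := hE
    have hgood := Pool.Agent.H845.Voj2.good_even c e h l (by omega)
    have hcard : Fintype.card (Fin m) = N + 1 := by rw [Fintype.card_fin]; exact hrm.symm
    have hdet := Pool.Agent.H845.Voj2.detE e he
    have huv := Pool.Agent.H845.Voj2.uvE e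
    constructor
    · intro κ hκ
      obtain ⟨C, hC⟩ := Pool.Agent.H845.Voj2.main_a (N + 1) hr2 hcard hR0 hdet _ hgood κ hκ
      exact ⟨C, fun B hB => hC B hB⟩
    · intro κ α h1 h2 h3
      obtain ⟨C, hC⟩ := Pool.Agent.H845.Voj2.main_b N hcard hR0 hdet huv _ hgood κ
        (((N : ℝ)) / 2 - κ) α (by ring) h1 (by push_cast at h3; linarith) h2
      exact ⟨C, fun B hB => hC B hB⟩
  · obtain ⟨l, hl⟩ := hO
    have hgood := Pool.Agent.H845.Voj2.good_odd c e h l (by omega)
    have hcard : Fintype.card (Option (Fin m)) = N + 1 := by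
      rw [Fintype.card_option, Fintype.card_fin]; exact hrm.symm
    have hdet := Pool.Agent.H845.Voj2.detO e he
    have huv := Pool.Agent.H845.Voj2.uvO e
    constructor
    · intro κ hκ
      obtain ⟨C, hC⟩ := Pool.Agent.H845.Voj2.main_a (N + 1) hr2 hcard hR0 hdet _ hgood κ hκ
      exact ⟨C, fun B hB => hC B hB⟩
    · intro κ α h1 h2 h3
      obtain ⟨C, hC⟩ := Pool.Agent.H845.Voj2.main_b N hcard hR0 hdet huv _ hgood κ
        (((N : ℝ)) / 2 - κ) α (by ring) h1 (by push_cast at h3; linarith) h2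
      exact ⟨C, fun B hB => hC B hB⟩

end Pool.Agent.Results.MP_9b9442_nt.RationalBranchPoints
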